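import Pool.Agent.Lib.MP_1a91b9_nuW.QW.Unit
import Pool.Agent.Lib.MP_1a91b9_nuT.P.Lvalue

/-!
# The value at `1` multiplied by the root of the discriminant
-/

set_option autoImplicit false

namespace Pool.Agent.Lib.MP_1a91b9_nuW.QW

variable [Pool.Agent.Lib.MP_1a91b9_nuT.CD]

open NumberField IsDedekindDomain Module Pool.Agent.Lib.MP_1a91b9_nuT
open Pool.Agent.Lib.MP_1a91b9_nuT.PL (Ab)

universe u

/-- the normalised value at `1` is a unit, after multiplication by a generator of the norm of the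
different -/
def VD (ℓ : ℕ) (F : Type u) [Field F] [NumberField F] [Algebra K F] (z : ℂ) : Prop :=
  ∀ A : ValuationSubring ℂ, Ab ℓ A → ∀ d : 𝓞 K,
    Ideal.relNorm (𝓞 K) (differentIdeal (𝓞 K) (𝓞 F)) = Ideal.span {d} →
      A.valuation (z / Om ^ finrank K F) ^ 2 * A.valuation (embK (d : K)) = 1

theorem val_pair {ℓ : ℕ} (hℓ : ℓ.Prime) (hbad : ¬ (ℓ : ℤ) ∣ CD.bad) {F : Type u} [Field F]
    [NumberField F] [Algebra K F] {z : ℂ} (hz : VD ℓ F z) {A : ValuationSubring ℂ}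
    (hA : Ab ℓ A) :
    (A.valuation z * A.valuation ((starRingEnd ℂ) z)) ^ 2 * A.valuation ((discr F : ℤ) : ℂ) =
      (A.valuation Om ^ finrank K F) ^ 4 := by
  obtain ⟨d, hd⟩ : ∃ d : 𝓞 K,
      Ideal.relNorm (𝓞 K) (differentIdeal (𝓞 K) (𝓞 F)) = Ideal.span {d} :=
    (IsPrincipalIdealRing.principal _).principal
  have hO : A.valuation Om ^ finrank K F ≠ 0 := pow_ne_zero _ ((map_ne_zero _).2 Om_ne)
  have h1 := hz A hA d hd
  have h2 := hz _ hA.comap d hd
  rw [← map_pow, ← map_mul] at h2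
  have h3 := Per.val_conj h2
  rw [map_mul, map_pow, map_div₀, map_pow, map_mul, map_pow, map_div₀, map_pow,
    Per.val_conj_Om] at h3
  rw [map_div₀, map_pow] at h1
  have h1' : A.valuation z ^ 2 * A.valuation (embK (d : K)) =
      (A.valuation Om ^ finrank K F) ^ 2 := by
    rw [div_pow, div_mul_eq_mul_div, div_eq_one_iff_eq (pow_ne_zero _ hO)] at h1
    exact h1
  have h3' : A.valuation ((starRingEnd ℂ) z) ^ 2 *
      A.valuation ((starRingEnd ℂ) (embK (d : K))) = (A.valuation Om ^ finrank K F) ^ 2 := by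
    rw [div_pow, div_mul_eq_mul_div, div_eq_one_iff_eq (pow_ne_zero _ hO)] at h3
    exact h3
  rw [val_discr_K hℓ hbad hd hA, mul_pow, mul_mul_mul_comm, h1', h3', ← pow_add]

/-- the field contains `K` -/
theorem valK {ℓ : ℕ} (hℓ : ℓ.Prime) (hbad : ¬ (ℓ : ℤ) ∣ CD.bad) {N : Type u} [Field N]
    [NumberField N] [Algebra K N] {z w ρ : ℂ} (hz : VD ℓ N z) (h : w * ρ = (starRingEnd ℂ) z * z)
    (hρ : ∀ A : ValuationSubring ℂ, Ab ℓ A → A.valuation ρ = 1) {A : ValuationSubring ℂ}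
    (hA : Ab ℓ A) :
    A.valuation (w * (Real.sqrt |(discr N : ℝ)| : ℝ)) = A.valuation Om ^ finrank ℚ N := by
  have h1 := val_pair hℓ hbad hz hA
  have h2 := congrArg A.valuation h
  rw [map_mul, hρ A hA, mul_one, map_mul] at h2
  refine (pow_left_inj₀ zero_le zero_le two_ne_zero).1 ?_
  rw [mul_comm (A.valuation ((starRingEnd ℂ) z))] at h2
  rw [map_mul, mul_pow, val_sqrt_discr, h2, h1, ← Module.finrank_mul_finrank ℚ K N, finrank_K,
    ← pow_mul, ← pow_mul]
  congr 1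
  ring

/-- the field does not contain `K` -/
theorem valN {ℓ : ℕ} (hℓ : ℓ.Prime) (hbad : ¬ (ℓ : ℤ) ∣ CD.bad) {N F : Type u} [Field N]
    [NumberField N] [Field F] [NumberField F] [Algebra N F] [Algebra K F] (hL : finrank N F = 2)
    (hn : ∀ x : N, algebraMap N F x ≠ algebraMap K F om) {z w ρ : ℂ} (hz : VD ℓ F z)
    (hre : (starRingEnd ℂ) z = z) (h : w * ρ = z)
    (hρ : ∀ A : ValuationSubring ℂ, Ab ℓ A → A.valuation ρ = 1) {A : ValuationSubring ℂ}
    (hA : Ab ℓ A) :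
    A.valuation (w * (Real.sqrt |(discr N : ℝ)| : ℝ)) = A.valuation Om ^ finrank ℚ N := by
  have h1 := val_pair hℓ hbad hz hA
  have h2 := congrArg A.valuation h
  rw [map_mul, hρ A hA, mul_one] at h2
  rw [hre, val_discr_N hℓ hbad hL hn hA, ← mul_pow, ← h2, ← val_sqrt_discr] at h1
  have hfr : finrank K F = finrank ℚ N := by
    have h3 := Module.finrank_mul_finrank ℚ N F
    have h4 := Module.finrank_mul_finrank ℚ K F
    rw [hL] at h3
    rw [finrank_K] at h4
    omega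
  refine (pow_left_inj₀ zero_le zero_le (four_ne_zero : (4 : ℕ) ≠ 0)).1 ?_
  rw [map_mul, ← hfr, ← h1]
  rw [show (4 : ℕ) = 2 * 2 from rfl, pow_mul, mul_pow, ← pow_two]

end Pool.Agent.Lib.MP_1a91b9_nuW.QW
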