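import Pool.Agent.Lib.MP_1a91b9_nuW.Defs
import Pool.Agent.Lib.MP_1a91b9_nuT.PL.Val

/-!
# The unit property normalised by the different

`UnitD ℓ N c`: the series of `ψbar_N c` continues and the square of its normalised value at `1`,
multiplied by a generator of the relative norm of the different, is a unit above `ℓ`.
`UnitWT p N c`: the same for the places above `p`.
-/

set_option autoImplicit false

namespace Pool.Agent.Lib.MP_1a91b9_nuW.QW

variable [Pool.Agent.Lib.MP_1a91b9_nuT.CD]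

open NumberField IsDedekindDomain Module Pool.Agent.Lib.MP_1a91b9_nuT
  Pool.Agent.Lib.MP_1a91b9_nuT.S4 Pool.Agent.Lib.MP_1a91b9_nuX
open Pool.Agent.Lib.MP_1a91b9_nuT.PL (Ab)

universe u

/-- The unit property above `ℓ`, normalised by the different. -/
def UnitD [HC] (ℓ : ℕ) (N : Type u) [Field N] [NumberField N] [Algebra K N]
    (c : Ideal (𝓞 N) → ℂ) : Prop :=
  ∃ L : ℂ → ℂ, Differentiable ℂ L ∧
    (∀ s : ℂ, 2 < s.re → L s = Lf (fun I => AN.psbC N I * c I) s) ∧
    ∀ A : ValuationSubring ℂ, Ab ℓ A → ∀ d : 𝓞 K,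
      Ideal.relNorm (𝓞 K) (differentIdeal (𝓞 K) (𝓞 N)) = Ideal.span {d} →
        A.valuation (L 1 / Om ^ finrank K N) ^ 2 * A.valuation (embK (d : K)) = 1

/-- The unit property above `p`, normalised by the different. -/
def UnitWT [HC] (p : 𝓞 K) (N : Type u) [Field N] [NumberField N] [Algebra K N]
    (c : Ideal (𝓞 N) → ℂ) : Prop :=
  ∃ L : ℂ → ℂ, Differentiable ℂ L ∧
    (∀ s : ℂ, 2 < s.re → L s = Lf (fun I => AN.psbC N I * c I) s) ∧
    ∀ A : ValuationSubring ℂ, PlP p A → ∀ d : 𝓞 K,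
      Ideal.relNorm (𝓞 K) (differentIdeal (𝓞 K) (𝓞 N)) = Ideal.span {d} →
        A.valuation (L 1 / Om ^ finrank K N) ^ 2 * A.valuation (embK (d : K)) = 1

end Pool.Agent.Lib.MP_1a91b9_nuW.QW
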