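import Pool.Agent.Lib.MP_1a91b9_nuX.QW.GluK
import Pool.Agent.Lib.MP_1a91b9_nuW.QW.FinK
import Pool.Agent.Lib.MP_1a91b9_nuW.ZD.Sub

/-!
# The `ℓ`-part of the formula for a form `W` of the curve over a field `N` which contains `K`

Ramification above `ℓ` is permitted if `ℓ` splits in `K`.
-/

set_option autoImplicit false

namespace Pool.Agent.Lib.MP_1a91b9_nuW.QW

open NumberField IsDedekindDomain WeierstrassCurve Module Pool.Agent.Lib.MP_1a91b9_nuT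
open Pool.Agent.Lib.MP_1a91b9_nuX Pool.Agent.Lib.MP_1a91b9_nuX.QW
open Pool.Agent.Lib.MP_1a91b9_nuW.ZD (UnitZ VAL WOk unitD_sc)
open Pool.Agent.Lib.MP_1a91b9_nuX.DB Pool.Agent.Lib.MP_1a91b9_nuX.DX Pool.Agent.Lib.MP_1a91b9_nuX.GL
open Pool.Agent.Lib.MP_1a91b9_nuG (up)
open Pool.Agent.Lib.MP_1a91b9_nuX.PG (Gd bC)
open Pool.Agent.Lib.MP_1a91b9_nuX.PH (Fm Hv psP AbW hv_E)
open Pool.Agent.Lib.MP_1a91b9_nuX.TG Pool.Agent.Lib.MP_1a91b9_nuX.TC
open Pool.Agent.Lib.MP_1a91b9_nuX.TH (NaW ChW)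
open Pool.Agent.Lib.MP_1a91b9_nuX.AN
open Pool.Agent.Lib.MP_1a91b9_nuX.PX (pts_down sha_down_gal)
open Pool.Agent.Lib.MP_1a91b9_nuT.CF (IsFr exists_over exists_fr)
open Pool.Agent.Lib.MP_1a91b9_nuT.TG (exists_comp)
open Pool.Agent.Lib.MP_1a91b9_nuT.PL (Ab Concl)
open Pool.Agent.Lib.MP_1a91b9_nuT.Per (cv)
open Pool.Agent.Lib.MP_1a91b9_nuT3.S9 (ShaP)

universe u

variable [CD] [HC]

/-- **The `ℓ`-part of the formula over a field which contains `K`.** -/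
theorem thm_KD (hE : EllK) {ℓ : ℕ} [hℓ : Fact ℓ.Prime] {μ : 𝓞 K} (N F F₀ L' : Type) [Field N]
    [NumberField N] [Algebra K N] [Field F] [NumberField F] [Algebra K F] [Field F₀]
    [NumberField F₀] [Algebra K F₀] [Field L'] [NumberField L'] [Algebra K L'] [Algebra N F]
    [Algebra F₀ F] [Algebra F₀ L'] [IsScalarTower K N F] [IsScalarTower K F₀ F]
    [IsScalarTower K F₀ L'] [IsGalois K L'] [DecidableEq L'] {T : Pt L'} (hT : AbT μ K T)
    (hgen : IntermediateField.adjoin N (Set.range (algebraMap F₀ F)) = ⊤) {g : 𝓞 K}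
    (hg0 : g ≠ 0) (hg : gB μ ∣ g) (hgℓ : IsCoprime g (ℓ : 𝓞 K))
    (hV : VAL.{0} ℓ) (h3 : WOk ℓ F) (hbad : ¬ (ℓ : ℤ) ∣ CD.bad) (hunit : UnitZ ℓ F)
    (hfin : Finite (E F).toAffine.Point) (hcop : (Nat.card (E F).toAffine.Point).Coprime ℓ)
    (hsha : Subsingleton (ShaP ℓ (E F))) (hna : NaW ℓ g (E F))
    {W : WeierstrassCurve N} {C : VariableChange F} (hC : C • W.baseChange F = E F)
    (hgood : ∀ (a b : N) (D : VariableChange N), D • W = cv a b →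
      ∀ v : HeightOneSpectrum (𝓞 N), (ℓ : 𝓞 N) ∈ v.asIdeal → GdA a b v) :
    Concl ℓ W := by
  classical
  have hC' : C • W.map (algebraMap N F) = E F := hC
  have hGal : IsGalois N F := TC.galois_sub N F F₀ L' hT hgen
  obtain ⟨L, _, _, _, _, _, _, t1, t2, t3, t4, hG, hL⟩ := exists_comp N F F₀ L' hgen
  have hT' := hT.up (N := N) hL
  obtain ⟨a, b, u, D, hD, hu, ha, hb⟩ := LF.exists_shortC W C (a' := cA F) (b' := cB F) hC
  obtain ⟨θ, hs⟩ := exists_theta (N := N) (L := F) (a := a) (b := b) hu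
    (by rw [ha, mul_comm]) (by rw [hb, mul_comm])
  have hD' : D • W = cv a b := hD
  have hchW := chW_sc hE hT' hg0 hg hs hD' hC'
  have hU := unitD_sc hT' hg0 hg θ hℓ.out hbad hV hgℓ h3 (fun w hw hf => by
    have h4 : HC.f ∉ (w.under (𝓞 K)).asIdeal := hf
    have h5 := hna w hw (TH.gd_E h4)
    rwa [hv_E hE h4] at h5) hunit
  have hW := TH.abW_of N F F₀ L' hT hgen hC'
  have hFm : Fm W := by
    obtain ⟨ι, D', hD'', -⟩ := hW
    exact ⟨ι, D', hD''⟩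
  have hnaW : NaW ℓ g W := TH.naW_down hE hFm (TH.naW_iso C hC' hna)
  obtain ⟨R, ρ, hR, hRs, hR1, hρ⟩ := TH.eul_K hE hT.ne hW hchW hgℓ hnaW
  obtain ⟨hfW, hdvd⟩ := pts_down (N := N) (N' := F) hfin W C hC
  have hcW : (Nat.card W.toAffine.Point).Coprime ℓ := Nat.Coprime.coprime_dvd_left hdvd hcop
  have hS : Subsingleton (ShaP ℓ W) := sha_down_gal (N := N) (N' := F) hsha hfin hcop W C hC
  exact concl_KD hbad hT' hs.up hg0 hg hD' hU (hgood a b D hD') hS hfW hcW hR hRs hR1 hρ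

end Pool.Agent.Lib.MP_1a91b9_nuW.QW
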