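import Pool.Agent.Lib.MP_1a91b9_nuW.Defs
import Pool.Agent.Lib.MP_1a91b9_nuT.PL.Val
import Pool.Agent.Lib.MP_1a91b9_nuT.P.Lvalue
import Pool.Agent.Lib.MP_1a91b9_nuT.D6.Du

/-!
# The discriminant and the relative norm of the different
-/

set_option autoImplicit false

namespace Pool.Agent.Lib.MP_1a91b9_nuW.QW

open NumberField IsDedekindDomain Module Pool.Agent.Lib.MP_1a91b9_nuT
open Pool.Agent.Lib.MP_1a91b9_nuT.PL (Ab)

universe u

theorem natAbs_discr_N (N F : Type u) [Field N] [NumberField N] [Field F] [NumberField F]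
    [Algebra N F] :
    (discr F).natAbs = Ideal.absNorm (differentIdeal (𝓞 N) (𝓞 F)) *
      (discr N).natAbs ^ finrank N F :=
  NumberField.natAbs_discr_eq_absNorm_differentIdeal_mul_natAbs_discr_pow N (𝓞 N) F (𝓞 F)

theorem val_discr {A : ValuationSubring ℂ} (n : ℤ) :
    A.valuation ((n : ℂ)) = A.valuation (((n.natAbs : ℕ) : ℂ)) := by
  rcases Int.natAbs_eq n with h | h
  · conv_lhs => rw [h]
    rw [Int.cast_natCast]
  · conv_lhs => rw [h]
    rw [Int.cast_neg, Valuation.map_neg, Int.cast_natCast]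

/-- the square root of the discriminant -/
theorem val_sqrt_discr {A : ValuationSubring ℂ} (n : ℤ) :
    A.valuation ((Real.sqrt |(n : ℝ)| : ℝ) : ℂ) ^ 2 = A.valuation ((n : ℂ)) := by
  rw [← map_pow, ← Complex.ofReal_pow, Real.sq_sqrt (abs_nonneg _)]
  rcases abs_choice (n : ℝ) with h | h
  · rw [h, Complex.ofReal_intCast]
  · rw [h, Complex.ofReal_neg, Valuation.map_neg, Complex.ofReal_intCast]

variable [Pool.Agent.Lib.MP_1a91b9_nuT.CD]

theorem natAbs_discr_K (F : Type u) [Field F] [NumberField F] [Algebra K F] :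
    (discr F).natAbs = Ideal.absNorm (Ideal.relNorm (𝓞 K) (differentIdeal (𝓞 K) (𝓞 F))) *
      (discr K).natAbs ^ finrank K F := by
  rw [NumberField.natAbs_discr_eq_absNorm_differentIdeal_mul_natAbs_discr_pow K (𝓞 K) F (𝓞 F),
    Ideal.absNorm_relNorm]

theorem trace_form (m n : ℤ) : Algebra.trace ℤ (𝓞 K) ((m : 𝓞 K) + (n : 𝓞 K) * ta) =
    2 * m + CD.tr * n := by
  rw [Algebra.trace_eq_matrix_trace bas, Matrix.trace_fin_two]
  simp only [Algebra.leftMulMatrix_eq_repr_mul, bas_zero, bas_one]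
  have e0 : ((m : 𝓞 K) + (n : 𝓞 K) * ta) * 1 = (m : 𝓞 K) + (n : 𝓞 K) * ta := mul_one _
  have e1 : ((m : 𝓞 K) + (n : 𝓞 K) * ta) * ta =
      ((-(n * CD.nm) : ℤ) : 𝓞 K) + ((m + n * CD.tr : ℤ) : 𝓞 K) * ta := by
    push_cast
    linear_combination (n : 𝓞 K) * ta_quad
  rw [e0, e1, bas_repr, bas_repr]
  simp
  ring

theorem discr_K : discr K = CD.tr ^ 2 - 4 * CD.nm := by
  rw [← NumberField.discr_eq_discr K bas, Algebra.discr_def, Matrix.det_fin_two]
  simp only [Algebra.traceMatrix_apply, Algebra.traceForm_apply, bas_zero, bas_one, one_mul,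
    mul_one]
  have h1 : Algebra.trace ℤ (𝓞 K) (1 : 𝓞 K) = 2 := by
    have h := trace_form 1 0
    have e : ((1 : ℤ) : 𝓞 K) + ((0 : ℤ) : 𝓞 K) * ta = 1 := by push_cast; ring
    rw [e] at h
    rw [h]
    ring
  have h2 : Algebra.trace ℤ (𝓞 K) (ta : 𝓞 K) = CD.tr := by
    have h := trace_form 0 1
    have e : ((0 : ℤ) : 𝓞 K) + ((1 : ℤ) : 𝓞 K) * ta = ta := by push_cast; ring
    rw [e] at h
    rw [h]
    ring
  have h3 : Algebra.trace ℤ (𝓞 K) (ta * ta : 𝓞 K) = CD.tr ^ 2 - 2 * CD.nm := by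
    have h := trace_form (-CD.nm) CD.tr
    have e : ((-CD.nm : ℤ) : 𝓞 K) + ((CD.tr : ℤ) : 𝓞 K) * ta = ta * ta := by
      push_cast
      linear_combination -ta_quad
    rw [e] at h
    rw [h]
    ring
  rw [h1, h2, h3]
  ring

theorem cop_discr_K {ℓ : ℕ} (hℓ : ℓ.Prime) (hbad : ¬ (ℓ : ℤ) ∣ CD.bad) :
    IsCoprime (discr K) (ℓ : ℤ) := by
  rw [isCoprime_comm]
  refine (Irreducible.coprime_iff_not_dvd (Nat.prime_iff_prime_int.1 hℓ).irreducible).2 ?_
  intro h
  rw [discr_K] at h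
  exact hbad ((h.mul_left _).trans CD.bad_dvd)

/-- `|discr F| = N(d) * |discr K| ^ n` at a place above `ℓ` -/
theorem val_discr_K {ℓ : ℕ} (hℓ : ℓ.Prime) (hbad : ¬ (ℓ : ℤ) ∣ CD.bad) {F : Type u} [Field F]
    [NumberField F] [Algebra K F] {d : 𝓞 K}
    (hd : Ideal.relNorm (𝓞 K) (differentIdeal (𝓞 K) (𝓞 F)) = Ideal.span {d})
    {A : ValuationSubring ℂ} (hA : Ab ℓ A) :
    A.valuation (((discr F : ℤ) : ℂ)) =
      A.valuation (embK (d : K)) * A.valuation ((starRingEnd ℂ) (embK (d : K))) := by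
  have h2 : A.valuation ((((discr K).natAbs : ℕ) : ℂ)) = 1 := by
    refine hA.nat ?_
    have h := Int.isCoprime_iff_gcd_eq_one.1 (cop_discr_K hℓ hbad)
    rwa [Int.gcd, Int.natAbs_natCast] at h
  have h3 : ((Ideal.absNorm (Ideal.span {d}) : ℕ) : ℂ) =
      embK (d : K) * (starRingEnd ℂ) (embK (d : K)) := by
    rw [Complex.mul_conj, normSq_emb]
    rfl
  rw [val_discr, natAbs_discr_K F, hd, Nat.cast_mul, map_mul, Nat.cast_pow, map_pow, h2, one_pow, mul_one,
    h3, map_mul]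

open Polynomial in
theorem disc_mem_N {N F : Type u} [Field N] [NumberField N] [Field F] [NumberField F]
    [Algebra N F] [Algebra K F] (hL : finrank N F = 2)
    (hn : ∀ x : N, algebraMap N F x ≠ algebraMap K F om) :
    ((CD.tr ^ 2 - 4 * CD.nm : ℤ) : 𝓞 F) ∈ differentIdeal (𝓞 N) (𝓞 F) := by
  obtain ⟨x, hx⟩ : ∃ x : 𝓞 F, x = algebraMap (𝓞 K) (𝓞 F) ta := ⟨_, rfl⟩
  have hxF : algebraMap (𝓞 F) F x = algebraMap K F om := by
    rw [hx]
    rfl
  have hquad : x ^ 2 = (CD.tr : 𝓞 F) * x - (CD.nm : 𝓞 F) := by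
    rw [hx, ← map_pow, ta_quad, map_sub, map_mul, map_intCast, map_intCast]
  have hint : IsIntegral (𝓞 N) x := Algebra.IsIntegral.isIntegral x
  have hintN : IsIntegral N (algebraMap (𝓞 F) F x) := Algebra.IsIntegral.isIntegral _
  have h2 : 2 ≤ (minpoly N (algebraMap (𝓞 F) F x)).natDegree := by
    rw [minpoly.two_le_natDegree_iff hintN]
    rintro ⟨y, hy⟩
    exact hn y (hy.trans hxF)
  have h2' : (minpoly N (algebraMap (𝓞 F) F x)).natDegree = finrank N F :=
    le_antisymm (minpoly.natDegree_le _) (by rw [hL]; exact h2)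
  have htop := (Field.primitive_element_iff_minpoly_natDegree_eq N (algebraMap (𝓞 F) F x)).2 h2'
  have hadj : Algebra.adjoin N {algebraMap (𝓞 F) F x} = ⊤ := by
    rw [← IntermediateField.adjoin_simple_toSubalgebra_of_isAlgebraic hintN.isAlgebraic, htop,
      IntermediateField.top_toSubalgebra]
  have hmem := aeval_derivative_mem_differentIdeal (𝓞 N) N F x hadj
  -- the minimal polynomial
  obtain ⟨P, hP⟩ : ∃ P : (𝓞 N)[X], P = X ^ 2 - C (CD.tr : 𝓞 N) * X + C (CD.nm : 𝓞 N) := ⟨_, rfl⟩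
  have hPd : P.natDegree = 2 := by
    rw [hP]
    compute_degree!
  have hPm : P.Monic := by
    rw [hP]
    monicity!
  have hPx : aeval x P = 0 := by
    rw [hP]
    simp only [map_add, map_sub, map_mul, map_pow, aeval_X, map_intCast]
    rw [hquad]
    ring
  have hmin : minpoly (𝓞 N) x = P := by
    refine (Polynomial.eq_of_monic_of_dvd_of_natDegree_le (minpoly.monic hint) hPm
      (minpoly.isIntegrallyClosed_dvd hint hPx) ?_).symm
    rw [hPd]
    rw [minpoly.isIntegrallyClosed_eq_field_fractions N F hint,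
      (minpoly.monic hint).natDegree_map] at h2
    exact h2
  have hder : aeval x (derivative P) = 2 * x - (CD.tr : 𝓞 F) := by
    rw [hP]
    simp
    exact Or.inl one_add_one_eq_two
  rw [hmin, hder] at hmem
  have h3 : ((CD.tr ^ 2 - 4 * CD.nm : ℤ) : 𝓞 F) =
      (2 * x - (CD.tr : 𝓞 F)) * (2 * x - (CD.tr : 𝓞 F)) := by
    push_cast
    linear_combination (-4) * hquad
  rw [h3]
  exact Ideal.mul_mem_left _ _ hmem

theorem cop_diff_N {ℓ : ℕ} (hℓ : ℓ.Prime) (hbad : ¬ (ℓ : ℤ) ∣ CD.bad) {N F : Type u} [Field N]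
    [NumberField N] [Field F] [NumberField F] [Algebra N F] [Algebra K F] (hL : finrank N F = 2)
    (hn : ∀ x : N, algebraMap N F x ≠ algebraMap K F om) :
    (Ideal.absNorm (differentIdeal (𝓞 N) (𝓞 F))).Coprime ℓ := by
  refine Ell.absNorm_cop hℓ _ ?_
  have h1 := disc_mem_N hL hn
  have h2 := cop_discr_K hℓ hbad
  rw [discr_K] at h2
  obtain ⟨a, b, hab⟩ := h2
  rw [Ideal.isCoprime_iff_exists]
  refine ⟨(a : 𝓞 F) * ((CD.tr ^ 2 - 4 * CD.nm : ℤ) : 𝓞 F), Ideal.mul_mem_left _ _ h1,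
    (b : 𝓞 F) * (ℓ : 𝓞 F), Ideal.mul_mem_left _ _ (Ideal.mem_span_singleton_self _), ?_⟩
  have h3 := congrArg (fun z : ℤ => (z : 𝓞 F)) hab
  push_cast at h3 ⊢
  exact h3

/-- `|disc F| = |disc N| ^ 2` at a place above `ℓ` -/
theorem val_discr_N {ℓ : ℕ} (hℓ : ℓ.Prime) (hbad : ¬ (ℓ : ℤ) ∣ CD.bad) {N F : Type u} [Field N]
    [NumberField N] [Field F] [NumberField F] [Algebra N F] [Algebra K F] (hL : finrank N F = 2)
    (hn : ∀ x : N, algebraMap N F x ≠ algebraMap K F om) {A : ValuationSubring ℂ}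
    (hA : Ab ℓ A) :
    A.valuation (((discr F : ℤ) : ℂ)) = A.valuation (((discr N : ℤ) : ℂ)) ^ 2 := by
  rw [val_discr, val_discr (discr N), natAbs_discr_N N F, hL, Nat.cast_mul, map_mul,
    hA.nat (cop_diff_N hℓ hbad hL hn), one_mul, Nat.cast_pow, map_pow]

end Pool.Agent.Lib.MP_1a91b9_nuW.QW
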