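import Pool.Agent.Lib.MP_1a91b9_nuW.QW.Defs
import Pool.Agent.Lib.MP_1a91b9_nuW.QW.Disc
import Pool.Agent.Lib.MP_1a91b9_nuT.S6.KF
import Pool.Agent.Lib.MP_1a91b9_nuX.TC.Defs

/-!
# The normalised unit property: from the unramified case and from the places above `p` and `conj p`
-/

set_option autoImplicit false

namespace Pool.Agent.Lib.MP_1a91b9_nuW.QW

variable [Pool.Agent.Lib.MP_1a91b9_nuT.CD]

open NumberField IsDedekindDomain Module Pool.Agent.Lib.MP_1a91b9_nuT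
  Pool.Agent.Lib.MP_1a91b9_nuT.S4 Pool.Agent.Lib.MP_1a91b9_nuX
open Pool.Agent.Lib.MP_1a91b9_nuT.PL (Ab)

universe u

theorem val_le_one (A : ValuationSubring ℂ) (d : 𝓞 K) : A.valuation (embK (d : K)) ≤ 1 := by
  rw [A.valuation_le_one_iff]
  refine kf_int A _ ?_
  exact (RingOfIntegers.isIntegral_coe d).map (embK : K →ₐ[ℚ] ℂ).toRingHom.toIntAlgHom

theorem val_gen {ℓ : ℕ} (hℓ : ℓ.Prime) (hbad : ¬ (ℓ : ℤ) ∣ CD.bad) {F : Type u} [Field F]
    [NumberField F] [Algebra K F] {d : 𝓞 K}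
    (hd : Ideal.relNorm (𝓞 K) (differentIdeal (𝓞 K) (𝓞 F)) = Ideal.span {d})
    (hdisc : IsCoprime (discr F) (ℓ : ℤ)) {A : ValuationSubring ℂ} (hA : Ab ℓ A) :
    A.valuation (embK (d : K)) = 1 := by
  have h1 := val_discr_K hℓ hbad hd hA
  rw [hA.int hdisc] at h1
  refine le_antisymm (val_le_one A d) ?_
  have h2 : A.valuation ((starRingEnd ℂ) (embK (d : K))) ≤ 1 := by
    rw [← emb_cj]
    exact val_le_one A _
  calc (1 : A.ValueGroup) = A.valuation (embK (d : K)) *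
        A.valuation ((starRingEnd ℂ) (embK (d : K))) := h1
    _ ≤ A.valuation (embK (d : K)) * 1 := mul_le_mul_right h2 _
    _ = _ := mul_one _

variable [HC]

theorem UnitD.of_T {ℓ : ℕ} (hℓ : ℓ.Prime) (hbad : ¬ (ℓ : ℤ) ∣ CD.bad) {N : Type u} [Field N]
    [NumberField N] [Algebra K N] (hdisc : IsCoprime (discr N) (ℓ : ℤ)) {c : Ideal (𝓞 N) → ℂ}
    (h : TC.UnitT ℓ Om N c) : UnitD ℓ N c := by
  obtain ⟨L, hL, hLs, hv⟩ := h
  refine ⟨L, hL, hLs, fun A hA d hd => ?_⟩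
  rw [hv A hA, val_gen hℓ hbad hd hdisc hA, one_pow, mul_one]

omit [HC] in
theorem pl_of_ab {p : 𝓞 K} {ℓ : ℕ} (hp : Spl p ℓ) {A : ValuationSubring ℂ} (hA : Ab ℓ A) :
    PlP p A ∨ PlP (cK p) A := by
  by_contra h
  rw [not_or] at h
  obtain ⟨h1, h2⟩ := h
  unfold PlP at h1 h2
  rw [not_not] at h1 h2
  refine hA ?_
  have h3 := A.mul_mem _ _ h1 h2
  have h4 : embK ((p * cK p : 𝓞 K) : K) = (ℓ : ℂ) := by
    rw [hp.mul]
    have h5 : (((ℓ : ℕ) : 𝓞 K) : K) = (ℓ : K) := map_natCast (algebraMap (𝓞 K) K) _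
    rw [h5, map_natCast]
  have h6 : ((p * cK p : 𝓞 K) : K) = (p : K) * ((cK p : 𝓞 K) : K) := map_mul (algebraMap (𝓞 K) K) _ _
  rw [h6, map_mul] at h4
  rwa [← mul_inv, h4] at h3

theorem UnitD.of_W {p : 𝓞 K} {ℓ : ℕ} (hp : Spl p ℓ) {N : Type u} [Field N] [NumberField N]
    [Algebra K N] {c : Ideal (𝓞 N) → ℂ} (h : UnitWT p N c) (h' : UnitWT (cK p) N c) :
    UnitD ℓ N c := by
  obtain ⟨L, hL, hLs, hv⟩ := h
  obtain ⟨L', hL', hLs', hv'⟩ := h'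
  have e : L' = L := entire_eq hL' hL fun s hs => by rw [hLs' s hs, hLs s hs]
  rw [e] at hv'
  refine ⟨L, hL, hLs, fun A hA d hd => ?_⟩
  rcases pl_of_ab hp hA with h1 | h1
  · exact hv A h1 d hd
  · exact hv' A h1 d hd

end Pool.Agent.Lib.MP_1a91b9_nuW.QW
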